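import Mathlib
import Pool.Agent.Helper303.FlatPC

open Pool.Agent.Helper303.Wind Pool.Agent.Helper303.Flat

namespace Pool.Agent.Results.MP_54add4_co.AllTriangles

/-- The planar case of the question: property (L) holds for every triangle `S` and every compact
subset `M` of the plane which is locally flat at one place, in particular for every compact
two-dimensional topological submanifold of the plane, without any smoothness of the boundary. -/
theorem result (S : Fin 3 → ℂ) (hS : AffineIndependent ℝ S) (M : Set ℂ) (hM : IsCompact M)
    (hF : FlatSomewhere M) : PropertyL S M :=
  PropertyL_of_good S hS M (fun w0 w1 w2 hcr => flat_main w0 w1 w2 hcr M hM hF)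

end Pool.Agent.Results.MP_54add4_co.AllTriangles
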