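import Mathlib

open Complex Topology

/-!
# MP_54add4_co: inscribed equilateral triangles in level sets, arbitrary planar `M`

For a compact set `M` in the plane with nonempty interior (no assumption on its boundary) and an
equilateral triangle `S`, the pair `(S, M)` has property (L).

Idea.  Let `W` be a component of the interior of `M`, and perturb `f` so that it is positive
exactly on `W`.  For a placement of the triangle with vertices `z₀, z₁, z₂` put
`G = f(z₀) + ω f(z₁) + ω² f(z₂)`, which vanishes exactly when the three values agree.  If `G` never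
vanishes as long as `z₀ ∈ W`, then the loop of placements turning about `z₀ = ` the maximum point
of `f` is homotopic, through such placements, to the loop turning about the centre of a disc deep
inside `W`.  On the first loop `Re G > 0`, so `G` does not wind around `0`; on the second a turn by
`2π/3` multiplies `G` by `ω²`, so the winding number is `2` modulo `3`.
-/

namespace Pool.Agent.Results.MP_54add4_co.EquilateralPlanar

/-- A continuous function on the line whose exponential is constant is constant. -/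
lemma const_of_exp {u : ℝ → ℂ} (hu : Continuous u) (h : ∀ x y, exp (u x) = exp (u y))
    (x y : ℝ) : u x = u y :=
  Complex.isCoveringMap_exp.const_of_comp hu (fun a b => Subtype.ext (h a b)) x y

/-- The primitive cube root of unity. -/
noncomputable def om : ℂ := ⟨-1/2, √3/2⟩

lemma om_re : om.re = -1/2 := rfl
lemma om_im : om.im = √3/2 := rfl

lemma sqrt3_sq : √3 * √3 = 3 := Real.mul_self_sqrt (by norm_num)

lemma om_sq : om ^ 2 = ⟨-1/2, -(√3/2)⟩ := by
  have h := sqrt3_sq
  apply Complex.ext
  · simp only [pow_two, Complex.mul_re, om_re, om_im]; nlinarith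
  · simp only [pow_two, Complex.mul_im, om_re, om_im]; ring

lemma om_cube : om ^ 3 = 1 := by
  have h := sqrt3_sq
  rw [pow_succ, om_sq]
  apply Complex.ext
  · simp only [Complex.mul_re, om_re, om_im, Complex.one_re]; nlinarith
  · simp only [Complex.mul_im, om_re, om_im, Complex.one_im]; ring

lemma om_exp : exp ((2 * Real.pi / 3 : ℝ) * I) = om := by
  have h1 : (2 * Real.pi / 3 : ℝ) = Real.pi - Real.pi / 3 := by ring
  rw [h1]
  apply Complex.ext
  · rw [Complex.exp_ofReal_mul_I_re, Real.cos_pi_sub, Real.cos_pi_div_three, om_re]; norm_num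
  · rw [Complex.exp_ofReal_mul_I_im, Real.sin_pi_sub, Real.sin_pi_div_three, om_im]

/-- The combination `a + ω b + ω² c` for real `a, b, c`. -/
noncomputable def comb (a b c : ℝ) : ℂ := a + om * b + om ^ 2 * c

lemma comb_re (a b c : ℝ) : (comb a b c).re = a - (b + c) / 2 := by
  simp only [comb, om_sq, Complex.add_re, Complex.mul_re, Complex.ofReal_re, Complex.ofReal_im,
    om_re, om_im]
  ring

lemma comb_im (a b c : ℝ) : (comb a b c).im = √3 / 2 * (b - c) := by
  simp only [comb, om_sq, Complex.add_im, Complex.mul_im, Complex.ofReal_re, Complex.ofReal_im,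
    om_re, om_im]
  ring

lemma comb_eq_zero {a b c : ℝ} (h : comb a b c = 0) : a = b ∧ a = c := by
  have h1 : (comb a b c).re = 0 := by rw [h]; rfl
  have h2 : (comb a b c).im = 0 := by rw [h]; rfl
  rw [comb_re] at h1
  rw [comb_im] at h2
  have h3 : (√3 : ℝ) / 2 ≠ 0 := by positivity
  have h4 : b - c = 0 := by
    rcases mul_eq_zero.mp h2 with h | h
    · exact absurd h h3
    · exact h
  constructor <;> linarith

theorem main_pos {W : Set ℂ} (hWc : IsPathConnected W)
    (hWb : Bornology.IsBounded W) {p : ℂ} {R ρ : ℝ} (hρ : 0 < ρ) (hρR : ρ ≤ R)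
    (hball : Metric.closedBall p R ⊆ W)
    {g : ℂ → ℝ} (hg : Continuous g) (hpos : ∀ x ∈ W, 0 < g x) (hzero : ∀ x, x ∉ W → g x = 0) :
    ∃ z u : ℂ, ‖u‖ = ρ ∧ z ∈ W ∧ z + (om - 1) * u ∈ W ∧ z + (om ^ 2 - 1) * u ∈ W ∧
      g z = g (z + (om - 1) * u) ∧ g z = g (z + (om ^ 2 - 1) * u) := by
  by_contra hcon
  have key : ∀ z u : ℂ, ‖u‖ = ρ → z ∈ W →
      comb (g z) (g (z + (om - 1) * u)) (g (z + (om ^ 2 - 1) * u)) ≠ 0 := by
    intro z u hu hz h0
    obtain ⟨h1, h2⟩ := comb_eq_zero h0
    have hgz := hpos z hz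
    refine hcon ⟨z, u, hu, hz, ?_, ?_, h1, h2⟩
    · by_contra hn
      rw [hzero _ hn] at h1
      linarith
    · by_contra hn
      rw [hzero _ hn] at h2
      linarith
  have hpW : p ∈ W := hball (Metric.mem_closedBall_self (by linarith))
  -- the maximum
  have hcomp : IsCompact (closure W) := hWb.isCompact_closure
  obtain ⟨x0, hx0c, hx0⟩ := hcomp.exists_isMaxOn ⟨p, subset_closure hpW⟩ hg.continuousOn
  have hmax : ∀ x, g x ≤ g x0 := by
    intro x
    by_cases hx : x ∈ W
    · exact hx0 (subset_closure hx)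
    · rw [hzero x hx]
      have h1 : g p ≤ g x0 := hx0 (subset_closure hpW)
      have h2 := hpos p hpW
      linarith
  have hx0W : x0 ∈ W := by
    by_contra hn
    have h1 := hmax p
    rw [hzero x0 hn] at h1
    have h2 := hpos p hpW
    linarith
  -- the path
  obtain ⟨γ, hγ⟩ := hWc.joinedIn x0 hx0W p hpW
  have hγe : ∀ t, γ.extend t ∈ W := by
    intro t
    have : γ.extend t ∈ Set.range γ := by
      rw [← Path.extend_range γ]; exact ⟨t, rfl⟩
    obtain ⟨s, hs⟩ := this
    rw [← hs]; exact hγ s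
  -- the data
  let β : ℝ → ℝ := fun t => ρ * max 0 (min 1 (t - 1))
  have hβc : Continuous β := by fun_prop
  let Z : ℝ × ℝ → ℂ := fun q => γ.extend q.1 + (β q.1 : ℂ) * exp (q.2 * I)
  have hZc : Continuous Z := by
    have := γ.continuous_extend
    fun_prop
  have hexpn : ∀ θ : ℝ, ‖exp (θ * I)‖ = 1 := fun θ => Complex.norm_exp_ofReal_mul_I θ
  have hZW : ∀ q, Z q ∈ W := by
    intro q
    rcases le_total q.1 1 with h | h
    · have h0 : β q.1 = 0 := by
        simp only [β]
        rw [max_eq_left, mul_zero]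
        exact le_trans (min_le_right _ _) (by linarith)
      simp only [Z, h0, Complex.ofReal_zero, zero_mul, add_zero]
      exact hγe _
    · have h1 : γ.extend q.1 = p := γ.extend_of_one_le h
      apply hball
      rw [Metric.mem_closedBall, dist_eq_norm]
      simp only [Z, h1, add_sub_cancel_left, norm_mul, hexpn, mul_one, Complex.norm_real]
      have hb1 : 0 ≤ β q.1 := mul_nonneg hρ.le (le_max_left _ _)
      have hb2 : β q.1 ≤ ρ := by
        have : max 0 (min 1 (q.1 - 1)) ≤ 1 := max_le zero_le_one (min_le_left _ _)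
        calc β q.1 = ρ * max 0 (min 1 (q.1 - 1)) := rfl
          _ ≤ ρ * 1 := mul_le_mul_of_nonneg_left this hρ.le
          _ = ρ := mul_one _
      rw [Real.norm_of_nonneg hb1]
      linarith
  let U : ℝ × ℝ → ℂ := fun q => (ρ : ℂ) * exp (q.2 * I)
  have hUc : Continuous U := by fun_prop
  have hUn : ∀ q, ‖U q‖ = ρ := by
    intro q
    simp only [U, norm_mul, hexpn, mul_one, Complex.norm_real, Real.norm_of_nonneg hρ.le]
  let G : ℝ × ℝ → ℂ := fun q => comb (g (Z q)) (g (Z q + (om - 1) * U q))
    (g (Z q + (om ^ 2 - 1) * U q))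
  have hGc : Continuous G := by
    simp only [G, comb]
    fun_prop
  have hG0 : ∀ q, G q ≠ 0 := fun q => key _ _ (hUn q) (hZW q)
  obtain ⟨L, ⟨-, hL⟩, -⟩ := Complex.isCoveringMapOn_exp.existsUnique_continuousMap_lifts
    (⟨G, hGc⟩ : C(ℝ × ℝ, ℂ)) (a₀ := ((0 : ℝ), (0 : ℝ))) (e₀ := log (G (0, 0)))
    (by exact exp_log (hG0 _)) (fun a => by simpa using hG0 a)
  have hLe : ∀ q, exp (L q) = G q := fun q => congrFun hL q
  have hLc : Continuous L := L.continuous
  have hper : ∀ t : ℝ, G (t, 2 * Real.pi) = G (t, 0) := by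
    intro t
    have h1 : exp (((2 * Real.pi : ℝ) : ℂ) * I) = exp (((0 : ℝ) : ℂ) * I) := by
      push_cast
      rw [Complex.exp_two_pi_mul_I, zero_mul, Complex.exp_zero]
    simp only [G, Z, U, h1]
  -- step (a)
  have ha : ∀ s t : ℝ, L (s, 2 * Real.pi) - L (s, 0) = L (t, 2 * Real.pi) - L (t, 0) := by
    intro s t
    refine const_of_exp (u := fun t => L (t, 2 * Real.pi) - L (t, 0)) (by fun_prop) ?_ s t
    intro x y
    rw [Complex.exp_sub, Complex.exp_sub, hLe, hLe, hLe, hLe, hper, hper,
      div_self (hG0 _), div_self (hG0 _)]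
  -- step (b)
  have hβ0 : β 0 = 0 := by
    simp only [β]
    rw [max_eq_left, mul_zero]
    exact le_trans (min_le_right _ _) (by norm_num)
  have hZ0 : ∀ θ : ℝ, Z (0, θ) = x0 := by
    intro θ
    simp only [Z, hβ0, Complex.ofReal_zero, zero_mul, add_zero]
    exact γ.extend_zero
  have hre : ∀ θ : ℝ, 0 < (G (0, θ)).re := by
    intro θ
    have hne := hG0 (0, θ)
    by_contra hle
    push Not at hle
    apply hne
    have e1 : G (0, θ) = comb (g x0) (g (x0 + (om - 1) * U (0, θ)))
      (g (x0 + (om ^ 2 - 1) * U (0, θ))) := by simp only [G, hZ0]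
    rw [e1, comb_re] at hle
    have m1 := hmax (x0 + (om - 1) * U (0, θ))
    have m2 := hmax (x0 + (om ^ 2 - 1) * U (0, θ))
    have e2 : g (x0 + (om - 1) * U (0, θ)) = g x0 := by linarith
    have e3 : g (x0 + (om ^ 2 - 1) * U (0, θ)) = g x0 := by linarith
    rw [e1, e2, e3]
    apply Complex.ext
    · rw [comb_re]; simp
    · rw [comb_im]; simp
  have hb : L (0, 2 * Real.pi) - L (0, 0) = 0 := by
    have hslit : ∀ θ : ℝ, G (0, θ) ∈ slitPlane := fun θ => Or.inl (hre θ)
    have hlogc : Continuous fun θ : ℝ => log (G (0, θ)) :=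
      Continuous.clog (by fun_prop) hslit
    have := const_of_exp (u := fun θ => L (0, θ) - log (G (0, θ))) (by fun_prop) (by
      intro x y
      rw [Complex.exp_sub, Complex.exp_sub, hLe, hLe, exp_log (hG0 _), exp_log (hG0 _),
        div_self (hG0 _), div_self (hG0 _)]) (2 * Real.pi) 0
    simp only [hper] at this
    linear_combination this
  -- step (c)
  have hβ2 : β 2 = ρ := by
    simp only [β]
    norm_num
  have hZ2 : ∀ θ : ℝ, Z (2, θ) = p + U (2, θ) := by
    intro θ
    simp only [Z, U, hβ2]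
    rw [γ.extend_of_one_le (by norm_num)]
  have hU2 : ∀ θ : ℝ, U (2, θ + 2 * Real.pi / 3) = om * U (2, θ) := by
    intro θ
    simp only [U]
    have : (((θ + 2 * Real.pi / 3 : ℝ)) : ℂ) * I = θ * I + ((2 * Real.pi / 3 : ℝ) : ℂ) * I := by
      push_cast; ring
    rw [this, Complex.exp_add, om_exp]
    ring
  have hGr : ∀ θ : ℝ, G (2, θ + 2 * Real.pi / 3) = om ^ 2 * G (2, θ) := by
    intro θ
    simp only [G, hZ2, hU2, comb]
    have a1 : p + om * U (2, θ) + (om - 1) * (om * U (2, θ)) =
      p + U (2, θ) + (om ^ 2 - 1) * U (2, θ) := by ring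
    have a2 : p + om * U (2, θ) + (om ^ 2 - 1) * (om * U (2, θ)) =
      p + U (2, θ) := by
      linear_combination U (2, θ) * om_cube
    have a3 : p + U (2, θ) + (om - 1) * U (2, θ) = p + om * U (2, θ) := by ring
    rw [a1, a2, a3]
    linear_combination (-(g (p + om * U (2, θ)) : ℂ)
      - om * (g (p + U (2, θ) + (om ^ 2 - 1) * U (2, θ)) : ℂ)) * om_cube
  have hc : ∀ s t : ℝ, L (2, s + 2 * Real.pi / 3) - L (2, s) =
      L (2, t + 2 * Real.pi / 3) - L (2, t) := by
    intro s t
    refine const_of_exp (u := fun t => L (2, t + 2 * Real.pi / 3) - L (2, t)) (by fun_prop) ?_ s t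
    intro x y
    rw [Complex.exp_sub, Complex.exp_sub, hLe, hLe, hLe, hLe, hGr, hGr,
      mul_div_assoc, mul_div_assoc, div_self (hG0 _), div_self (hG0 _)]
  have c0 := hc (2 * Real.pi / 3) 0
  have c1 := hc (2 * Real.pi / 3 + 2 * Real.pi / 3) 0
  have hsum : (2 * Real.pi / 3 + 2 * Real.pi / 3 + 2 * Real.pi / 3) = 2 * Real.pi := by ring
  rw [hsum] at c1
  have hD := ha 2 0
  rw [hb] at hD
  set E := L (2, 0 + 2 * Real.pi / 3) - L (2, 0) with hE
  have hE0 : E = 0 := by
    have h3 : 3 * E = 0 := by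
      have e1 : L (2, 0 + 2 * Real.pi / 3) = L (2, 2 * Real.pi / 3) := by rw [zero_add]
      rw [e1] at hE
      linear_combination hD - c0 - c1 + hE
    simpa using h3
  have hexpE : exp E = om ^ 2 := by
    rw [hE, Complex.exp_sub, hLe, hLe, hGr, mul_div_assoc, div_self (hG0 _), mul_one]
  rw [hE0, Complex.exp_zero] at hexpE
  have := congrArg Complex.re hexpE
  rw [om_sq] at this
  norm_num at this

/-- The planar statement over `ℂ`, for a function on the plane whose restriction to `M` is
continuous and vanishes on the frontier of `M`. -/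
theorem planar_C {M : Set ℂ} (hM : IsCompact M) {p : ℂ} {R ρ : ℝ} (hρ : 0 < ρ) (hρR : ρ ≤ R)
    (hball : Metric.closedBall p R ⊆ interior M) {f : ℂ → ℝ} (hf : ContinuousOn f M)
    (hf0 : ∀ x ∈ M, 0 ≤ f x) (hfr : ∀ x ∈ frontier M, f x = 0) :
    ∃ z u : ℂ, ‖u‖ = ρ ∧ z ∈ M ∧ z + (om - 1) * u ∈ M ∧ z + (om ^ 2 - 1) * u ∈ M ∧
      f z = f (z + (om - 1) * u) ∧ f z = f (z + (om ^ 2 - 1) * u) := by
  classical
  have hpi : p ∈ interior M := hball (Metric.mem_closedBall_self (by linarith))
  set W : Set ℂ := connectedComponentIn (interior M) p with hW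
  have hWo : IsOpen W := isOpen_interior.connectedComponentIn
  have hWi : W ⊆ interior M := connectedComponentIn_subset _ _
  have hWM : W ⊆ M := hWi.trans interior_subset
  have hWp : IsPreconnected W := isPreconnected_connectedComponentIn
  have hpW : p ∈ W := mem_connectedComponentIn hpi
  have hWc : IsPathConnected W := (hWo.isConnected_iff_isPathConnected).mp ⟨⟨p, hpW⟩, hWp⟩
  have hbW : Metric.closedBall p R ⊆ W :=
    (convex_closedBall p R).isPreconnected.subset_connectedComponentIn
      (Metric.mem_closedBall_self (by linarith)) hball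
  have hclM : closure W ⊆ M := closure_minimal hWM hM.isClosed
  have hWb : Bornology.IsBounded W := hM.isBounded.subset hWM
  have hfront : ∀ x ∈ closure W, x ∉ W → x ∈ frontier M := by
    intro x hx hxW
    refine ⟨subset_closure (hclM hx), fun hxi => hxW ?_⟩
    have h1 : IsPreconnected (insert x W) :=
      hWp.subset_closure (Set.subset_insert x W) (Set.insert_subset hx subset_closure)
    exact h1.subset_connectedComponentIn (Set.mem_insert_of_mem _ hpW)
      (Set.insert_subset hxi hWi) (Set.mem_insert x W)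
  let h : ℂ → ℝ := fun x => if x ∈ W then f x else 0
  have hh : Continuous h := by
    refine continuous_if ?_ (hf.mono hclM) continuousOn_const
    intro a ha
    have ha' : a ∈ frontier W := ha
    rw [hWo.frontier_eq] at ha'
    exact hfr a (hfront a ha'.1 ha'.2)
  have hh0 : ∀ x, 0 ≤ h x := by
    intro x
    simp only [h]
    split_ifs with hx
    · exact hf0 x (hWM hx)
    · exact le_rfl
  have hhf : ∀ x ∈ closure W, h x = f x := by
    intro x hx
    simp only [h]
    split_ifs with hxW
    · rfl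
    · exact (hfr x (hfront x hx hxW)).symm
  have hWne : W ≠ Set.univ := fun hu =>
    hM.ne_univ (Set.eq_univ_of_univ_subset (hu ▸ hWM))
  have hcne : (Wᶜ).Nonempty := Set.nonempty_compl.mpr hWne
  let dd : ℂ → ℝ := fun x => min (Metric.infDist x Wᶜ) 1
  have hdd : Continuous dd := (Metric.continuous_infDist_pt _).min continuous_const
  have hdd0 : ∀ x, 0 ≤ dd x := fun x => le_min Metric.infDist_nonneg zero_le_one
  have hdd1 : ∀ x, dd x ≤ 1 := fun x => min_le_right _ _
  have hddp : ∀ x ∈ W, 0 < dd x := fun x hx =>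
    lt_min ((hWo.isClosed_compl.notMem_iff_infDist_pos hcne).mp (fun hn => hn hx)) one_pos
  have hddz : ∀ x, x ∉ W → dd x = 0 := by
    intro x hx
    simp only [dd]
    rw [Metric.infDist_zero_of_mem (show x ∈ Wᶜ from hx)]
    simp
  -- solutions for the perturbed functions
  have hsol : ∀ ε : ℝ, 0 < ε → ∃ z u : ℂ, ‖u‖ = ρ ∧ z ∈ W ∧ z + (om - 1) * u ∈ W ∧
      z + (om ^ 2 - 1) * u ∈ W ∧ |h z - h (z + (om - 1) * u)| ≤ ε ∧
      |h z - h (z + (om ^ 2 - 1) * u)| ≤ ε := by
    intro ε hε
    obtain ⟨z, u, h1, h2, h3, h4, h5, h6⟩ := main_pos (W := W) hWc hWb hρ hρR hbW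
      (g := fun x => h x + ε * dd x) (by fun_prop)
      (fun x hx => by have := mul_pos hε (hddp x hx); have := hh0 x; linarith)
      (fun x hx => by
        have e1 : h x = 0 := by simp only [h]; rw [if_neg hx]
        rw [e1, hddz x hx]; ring)
    refine ⟨z, u, h1, h2, h3, h4, ?_, ?_⟩
    · have a0 := hdd0 z
      have a1 := hdd1 z
      have b0 := hdd0 (z + (om - 1) * u)
      have b1 := hdd1 (z + (om - 1) * u)
      rw [abs_le]
      constructor <;> nlinarith
    · have a0 := hdd0 z
      have a1 := hdd1 z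
      have b0 := hdd0 (z + (om ^ 2 - 1) * u)
      have b1 := hdd1 (z + (om ^ 2 - 1) * u)
      rw [abs_le]
      constructor <;> nlinarith
  -- compactness
  let K : Set (ℂ × ℂ) := (closure W ×ˢ Metric.sphere (0 : ℂ) ρ) ∩
    ((fun q : ℂ × ℂ => q.1 + (om - 1) * q.2) ⁻¹' closure W ∩
      (fun q : ℂ × ℂ => q.1 + (om ^ 2 - 1) * q.2) ⁻¹' closure W)
  have hK : IsCompact K := by
    refine (hWb.isCompact_closure.prod (isCompact_sphere 0 ρ)).inter_right ?_
    exact (isClosed_closure.preimage (by fun_prop)).inter (isClosed_closure.preimage (by fun_prop))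
  let D : ℂ × ℂ → ℝ := fun q => |h q.1 - h (q.1 + (om - 1) * q.2)| +
    |h q.1 - h (q.1 + (om ^ 2 - 1) * q.2)|
  have hD : Continuous D := by fun_prop
  have hKmem : ∀ ε : ℝ, 0 < ε → ∃ q ∈ K, D q ≤ 2 * ε := by
    intro ε hε
    obtain ⟨z, u, h1, h2, h3, h4, h5, h6⟩ := hsol ε hε
    refine ⟨(z, u), ⟨⟨subset_closure h2, ?_⟩, subset_closure h3, subset_closure h4⟩, ?_⟩
    · simp [h1]
    · simp only [D]; linarith
  obtain ⟨q1, hq1, -⟩ := hKmem 1 one_pos
  obtain ⟨q, hqK, hqmin⟩ := hK.exists_isMinOn ⟨q1, hq1⟩ hD.continuousOn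
  have hDq : D q ≤ 0 := by
    refine le_of_forall_pos_le_add fun ε hε => ?_
    obtain ⟨q', hq', hDq'⟩ := hKmem (ε / 2) (by positivity)
    have := hqmin hq'
    simp only [Set.mem_ofPred_eq] at this
    linarith
  obtain ⟨⟨k1, k2⟩, k3, k4⟩ := hqK
  have e1 : h q.1 = h (q.1 + (om - 1) * q.2) := by
    have a := abs_nonneg (h q.1 - h (q.1 + (om - 1) * q.2))
    have b := abs_nonneg (h q.1 - h (q.1 + (om ^ 2 - 1) * q.2))
    have c : |h q.1 - h (q.1 + (om - 1) * q.2)| = 0 := by
      have : D q = |h q.1 - h (q.1 + (om - 1) * q.2)| +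
        |h q.1 - h (q.1 + (om ^ 2 - 1) * q.2)| := rfl
      linarith
    linarith [abs_eq_zero.mp c]
  have e2 : h q.1 = h (q.1 + (om ^ 2 - 1) * q.2) := by
    have a := abs_nonneg (h q.1 - h (q.1 + (om - 1) * q.2))
    have b := abs_nonneg (h q.1 - h (q.1 + (om ^ 2 - 1) * q.2))
    have c : |h q.1 - h (q.1 + (om ^ 2 - 1) * q.2)| = 0 := by
      have : D q = |h q.1 - h (q.1 + (om - 1) * q.2)| +
        |h q.1 - h (q.1 + (om ^ 2 - 1) * q.2)| := rfl
      linarith
    linarith [abs_eq_zero.mp c]
  refine ⟨q.1, q.2, by simpa using k2, hclM k1, hclM k3, hclM k4, ?_, ?_⟩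
  · rw [← hhf _ k1, ← hhf _ k3]; exact e1
  · rw [← hhf _ k1, ← hhf _ k4]; exact e2

/-- **Property (L)** of the problem file, for the `d`-simplex with vertices `v 0, …, v d` and the
set `M ⊆ ℝ^d`: there is `σ > 0` such that for every `τ ∈ (0, σ]` and every continuous
`f : M → [0, ∞)` vanishing on the boundary (the frontier) of `M`, some simplex of diameter `τ`
similar to the given one has all its vertices in one level set of `f`. -/
def PropertyL {d : ℕ} (v : Fin (d + 1) → EuclideanSpace ℝ (Fin d))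
    (M : Set (EuclideanSpace ℝ (Fin d))) : Prop :=
  ∃ σ : ℝ, 0 < σ ∧ ∀ τ : ℝ, 0 < τ → τ ≤ σ →
    ∀ f : M → ℝ, Continuous f → (∀ x, 0 ≤ f x) →
      (∀ x : M, (x : EuclideanSpace ℝ (Fin d)) ∈ frontier M → f x = 0) →
      ∃ (w : Fin (d + 1) → M) (c : ℝ), (∀ i, f (w i) = c) ∧
        Similar (fun i => (w i : EuclideanSpace ℝ (Fin d))) v ∧
        Metric.diam (convexHull ℝ (Set.range fun i => (w i : EuclideanSpace ℝ (Fin d)))) = τ

lemma norm_om_sub_one : ‖om - 1‖ = √3 := by
  have h := sqrt3_sq
  rw [Complex.norm_def, Complex.normSq_apply]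
  congr 1
  simp only [Complex.sub_re, Complex.sub_im, om_re, om_im, Complex.one_re, Complex.one_im]
  nlinarith

lemma norm_om_sq_sub_one : ‖om ^ 2 - 1‖ = √3 := by
  have h := sqrt3_sq
  rw [Complex.norm_def, Complex.normSq_apply]
  congr 1
  simp only [Complex.sub_re, Complex.sub_im, om_sq, Complex.one_re, Complex.one_im]
  nlinarith

lemma norm_om_sub_om_sq : ‖om - om ^ 2‖ = √3 := by
  have h := sqrt3_sq
  rw [Complex.norm_def, Complex.normSq_apply]
  congr 1
  simp only [Complex.sub_re, Complex.sub_im, om_sq, om_re, om_im]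
  nlinarith

/-- The equilateral triangle has property (L) for **every** compact subset `M` of the plane with
nonempty interior; nothing is assumed about the boundary of `M`. -/
theorem equilateral (M : Set (EuclideanSpace ℝ (Fin 2))) (hM : IsCompact M)
    (hint : (interior M).Nonempty) (v : Fin 3 → EuclideanSpace ℝ (Fin 2)) (s : ℝ) (hs : 0 < s)
    (hv : ∀ i j, i ≠ j → dist (v i) (v j) = s) : PropertyL v M := by
  classical
  let e : ℂ ≃ₗᵢ[ℝ] EuclideanSpace ℝ (Fin 2) := Complex.orthonormalBasisOneI.repr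
  have h3 : 0 < √3 := by positivity
  let M' : Set ℂ := e ⁻¹' M
  have hM' : IsCompact M' := e.toHomeomorph.isCompact_preimage.mpr hM
  have hi' : interior M' = e ⁻¹' interior M := (e.toHomeomorph.preimage_interior M).symm
  have hf' : frontier M' = e ⁻¹' frontier M := (e.toHomeomorph.preimage_frontier M).symm
  obtain ⟨P, hP⟩ := hint
  have hp : e.symm P ∈ interior M' := by
    rw [hi']; simpa using hP
  obtain ⟨R0, hR0, hball0⟩ := Metric.isOpen_iff.mp isOpen_interior _ hp
  have hball : Metric.closedBall (e.symm P) (R0 / 2) ⊆ interior M' :=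
    (Metric.closedBall_subset_ball (by linarith)).trans hball0
  refine ⟨√3 * (R0 / 2), by positivity, ?_⟩
  intro τ hτ hτσ f hf hf0 hfr
  let F : ℂ → ℝ := fun z => if h : e z ∈ M then f ⟨e z, h⟩ else 0
  have hF : ContinuousOn F M' := by
    rw [continuousOn_iff_continuous_domRestrict]
    have : M'.domRestrict F = fun z : M' => f ⟨e z, z.2⟩ := by
      funext z
      simp only [Set.domRestrict_apply, F]
      rw [dif_pos (show e (z : ℂ) ∈ M from z.2)]
    rw [this]
    exact hf.comp (Continuous.subtype_mk (e.continuous.comp continuous_subtype_val) _)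
  have hF0 : ∀ x ∈ M', 0 ≤ F x := by
    intro x hx
    simp only [F]
    rw [dif_pos (show e x ∈ M from hx)]
    exact hf0 _
  have hFr : ∀ x ∈ frontier M', F x = 0 := by
    intro x hx
    simp only [F]
    split_ifs with h
    · refine hfr _ ?_
      rw [hf'] at hx
      exact hx
    · rfl
  have hρ : 0 < τ / √3 := by positivity
  have hρR : τ / √3 ≤ R0 / 2 := by
    rw [div_le_iff₀ h3]; linarith
  obtain ⟨z, u, hu, hz0, hz1, hz2, h01, h02⟩ := planar_C hM' hρ hρR hball hF hF0 hFr
  have hFe : ∀ (x : ℂ) (hx : x ∈ M'), F x = f ⟨e x, hx⟩ := by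
    intro x hx
    simp only [F]
    rw [dif_pos (show e x ∈ M from hx)]
  have hτ3 : √3 * (τ / √3) = τ := by field_simp
  have d01 : dist (e z) (e (z + (om - 1) * u)) = τ := by
    rw [e.dist_map, dist_eq_norm,
      show z - (z + (om - 1) * u) = -((om - 1) * u) by ring, norm_neg, norm_mul,
      norm_om_sub_one, hu, hτ3]
  have d02 : dist (e z) (e (z + (om ^ 2 - 1) * u)) = τ := by
    rw [e.dist_map, dist_eq_norm,
      show z - (z + (om ^ 2 - 1) * u) = -((om ^ 2 - 1) * u) by ring, norm_neg, norm_mul,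
      norm_om_sq_sub_one, hu, hτ3]
  have d12 : dist (e (z + (om - 1) * u)) (e (z + (om ^ 2 - 1) * u)) = τ := by
    rw [e.dist_map, dist_eq_norm,
      show z + (om - 1) * u - (z + (om ^ 2 - 1) * u) = (om - om ^ 2) * u by ring, norm_mul,
      norm_om_sub_om_sq, hu, hτ3]
  let w : Fin 3 → M := ![⟨e z, hz0⟩, ⟨e (z + (om - 1) * u), hz1⟩,
    ⟨e (z + (om ^ 2 - 1) * u), hz2⟩]
  have hw : ∀ i j, i ≠ j →
      dist (w i : EuclideanSpace ℝ (Fin 2)) (w j : EuclideanSpace ℝ (Fin 2)) = τ := by
    intro i j hij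
    fin_cases i <;> fin_cases j <;>
      first
        | exact absurd rfl hij
        | exact d01
        | exact d02
        | exact d12
        | exact (dist_comm _ _).trans d01
        | exact (dist_comm _ _).trans d02
        | exact (dist_comm _ _).trans d12
  refine ⟨w, F z, ?_, ?_, ?_⟩
  · intro i
    fin_cases i
    · exact (hFe z hz0).symm
    · exact ((hFe _ hz1).symm).trans h01.symm
    · exact ((hFe _ hz2).symm).trans h02.symm
  · rw [similar_iff_exists_pos_pairwise_dist_eq]
    refine ⟨τ / s, by positivity, ?_⟩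
    intro i j hij
    rw [hw i j hij, hv i j hij]
    field_simp
  · rw [convexHull_diam]
    apply le_antisymm
    · refine Metric.diam_le_of_forall_dist_le hτ.le ?_
      rintro _ ⟨i, rfl⟩ _ ⟨j, rfl⟩
      by_cases hij : i = j
      · subst hij; simp [hτ.le]
      · exact (hw i j hij).le
    · have hfin : (Set.range fun i => (w i : EuclideanSpace ℝ (Fin 2))).Finite :=
        Set.finite_range _
      have := Metric.dist_le_diam_of_mem hfin.isBounded ⟨0, rfl⟩ ⟨1, rfl⟩
      rwa [hw 0 1 (by decide)] at this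

/-- **Result.** For every compact `M ⊆ ℝ²` with nonempty interior and every equilateral triangle
(vertices `v 0, v 1, v 2` at pairwise distance `s > 0`), the pair has property (L). -/
theorem result : ∀ M : Set (EuclideanSpace ℝ (Fin 2)), IsCompact M → (interior M).Nonempty →
    ∀ (v : Fin 3 → EuclideanSpace ℝ (Fin 2)) (s : ℝ), 0 < s →
      (∀ i j, i ≠ j → dist (v i) (v j) = s) → PropertyL v M :=
  fun M hM hint v s hs hv => equilateral M hM hint v s hs hv

end Pool.Agent.Results.MP_54add4_co.EquilateralPlanar
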